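import Mathlib

/-! Ranges of attained numbers of distinct distances. -/

namespace Pool.Agent.Results.MP_603301_co.Simplex

open Finset Classical

/-- the set of distances between distinct points of `S` -/
noncomputable def DS {E : Type} [MetricSpace E] (S : Finset E) : Finset ℝ :=
  S.offDiag.image fun p => dist p.1 p.2

/-- the possible numbers of distinct distances among `n` points of `ℝ^k` -/
def D (k n : ℕ) : Set ℕ :=
  {m | ∃ S : Finset (EuclideanSpace ℝ (Fin k)), S.card = n ∧ (DS S).card = m}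

theorem mem_DS {E : Type} [MetricSpace E] {S : Finset E} {d : ℝ} :
    d ∈ DS S ↔ ∃ x ∈ S, ∃ y ∈ S, x ≠ y ∧ dist x y = d := by
  simp only [DS, mem_image, mem_offDiag, Prod.exists]
  constructor
  · rintro ⟨x, y, ⟨h1, h2, h3⟩, h4⟩
    exact ⟨x, h1, y, h2, h3, h4⟩
  · rintro ⟨x, h1, y, h2, h3, h4⟩
    exact ⟨x, y, ⟨h1, h2, h3⟩, h4⟩

theorem transfer {E F : Type} [MetricSpace E] [MetricSpace F] (S : Finset E) (f : E → F)
    (h : ∀ x ∈ S, ∀ y ∈ S, dist (f x) (f y) = dist x y) :
    (S.image f).card = S.card ∧ DS (S.image f) = DS S := by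
  have hi : ∀ x ∈ S, ∀ y ∈ S, f x = f y → x = y := fun x hx y hy e => by
    have := h x hx y hy
    rw [e, dist_self] at this
    exact dist_eq_zero.1 this.symm
  refine ⟨card_image_of_injOn fun x hx y hy e => hi x hx y hy e, ?_⟩
  ext d
  simp only [mem_DS]
  constructor
  · rintro ⟨a, ha, b, hb, h3, h4⟩
    obtain ⟨x, hx, rfl⟩ := mem_image.1 ha
    obtain ⟨y, hy, rfl⟩ := mem_image.1 hb
    exact ⟨x, hx, y, hy, fun e => h3 (by rw [e]), by rw [← h x hx y hy, h4]⟩
  · rintro ⟨x, hx, y, hy, h3, h4⟩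
    exact ⟨_, mem_image_of_mem f hx, _, mem_image_of_mem f hy, fun e => h3 (hi x hx y hy e),
      by rw [h x hx y hy, h4]⟩

theorem emb (W : Type) [NormedAddCommGroup W] [InnerProductSpace ℝ W] [FiniteDimensional ℝ W]
    {k : ℕ} (h : Module.finrank ℝ W ≤ k) : ∃ f : W → EuclideanSpace ℝ (Fin k), Isometry f := by
  let b := stdOrthonormalBasis ℝ W
  let v : Fin (Module.finrank ℝ W) → EuclideanSpace ℝ (Fin k) :=
    fun i => EuclideanSpace.basisFun (Fin k) ℝ (Fin.castLE h i)
  have hv : Orthonormal ℝ v :=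
    (EuclideanSpace.basisFun (Fin k) ℝ).orthonormal.comp _ (Fin.castLE_injective h)
  refine ⟨_, ((b.toBasis.constr ℝ v).isometryOfOrthonormal (v := b.toBasis)
    (by simp) ?_).isometry⟩
  convert hv using 1
  ext1 i
  exact b.toBasis.constr_basis ℝ v i

theorem toD (W : Type) [NormedAddCommGroup W] [InnerProductSpace ℝ W] [FiniteDimensional ℝ W]
    {k : ℕ} (h : Module.finrank ℝ W ≤ k) (S : Finset W) : (DS S).card ∈ D k S.card := by
  obtain ⟨f, hf⟩ := emb W h
  obtain ⟨h1, h2⟩ := transfer S f fun x _ y _ => hf.dist_eq x y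
  exact ⟨_, h1, by rw [h2]⟩

theorem toD' (V : Type) [NormedAddCommGroup V] [InnerProductSpace ℝ V]
    {k : ℕ} (S : Finset V) (hS : S.Nonempty) (h : S.card - 1 ≤ k) : (DS S).card ∈ D k S.card := by
  obtain ⟨o, ho⟩ := hS
  let T : Finset V := (S.erase o).image fun x => x - o
  let W : Submodule ℝ V := Submodule.span ℝ (T : Set V)
  have hW : Module.finrank ℝ W ≤ k :=
    (finrank_span_finset_le_card T).trans (card_image_le.trans (by rw [card_erase_of_mem ho]; exact h))
  obtain ⟨f, hf⟩ := emb W hW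
  have hm : ∀ x ∈ S, x - o ∈ W := fun x hx => by
    by_cases e : x = o
    · rw [e, sub_self]; exact W.zero_mem
    · exact Submodule.subset_span (mem_coe.2 (mem_image_of_mem _ (mem_erase.2 ⟨e, hx⟩)))
  obtain ⟨h1, h2⟩ := transfer S (fun x => if h : x - o ∈ W then f ⟨x - o, h⟩ else 0)
    fun x hx y hy => by
      simp only [dif_pos (hm x hx), dif_pos (hm y hy)]
      rw [hf.dist_eq, Subtype.dist_eq, dist_sub_right]
  exact ⟨_, h1, by rw [h2]⟩

theorem upper {E : Type} [MetricSpace E] (S : Finset E) : (DS S).card ≤ S.card.choose 2 := by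
  rw [← Sym2.card_image_offDiag]
  have : DS S = (S.offDiag.image (fun p => s(p.1, p.2))).image
      (Sym2.lift ⟨fun x y : E => dist x y, fun x y => dist_comm x y⟩) := by
    rw [image_image]; rfl
  rw [this]
  exact card_image_le

theorem lower (S : Finset ℝ) (hS : S.Nonempty) : S.card - 1 ≤ (DS S).card := by
  rw [← card_erase_of_mem (S.min'_mem hS)]
  refine card_le_card_of_injOn (fun x => x - S.min' hS) (fun x hx => ?_) (fun x _ y _ e => ?_)
  · have hx' := mem_erase.1 (mem_coe.1 hx)
    refine mem_coe.2 (mem_DS.2 ⟨x, hx'.2, _, S.min'_mem hS, hx'.1, ?_⟩)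
    rw [Real.dist_eq, abs_of_nonneg (sub_nonneg.2 (S.min'_le x hx'.2))]
  · simpa using e

theorem small (n m : ℕ) (h1 : n ≤ m) (h2 : m + 1 ≤ 2 * n) :
    ∃ S : Finset ℝ, S.card = n + 1 ∧ (DS S).card = m := by
  refine ⟨(insert m (range n)).image (fun a : ℕ => (a : ℝ)), ?_, ?_⟩
  · rw [card_image_of_injective _ Nat.cast_injective, card_insert_of_notMem (by simp; omega),
      card_range]
  · have : DS ((insert m (range n)).image (fun a : ℕ => (a : ℝ)))
        = (Icc 1 m).image (fun a : ℕ => (a : ℝ)) := by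
      ext d
      rw [mem_DS, mem_image]
      have key : ∀ a b : ℕ, b ≤ a → dist (a : ℝ) (b : ℝ) = ((a - b : ℕ) : ℝ) := fun a b h => by
        rw [Real.dist_eq, Nat.cast_sub h, abs_of_nonneg (sub_nonneg.2 (Nat.cast_le.2 h))]
      constructor
      · rintro ⟨x, hx, y, hy, h3, h4⟩
        obtain ⟨a, ha, rfl⟩ := mem_image.1 hx
        obtain ⟨b, hb, rfl⟩ := mem_image.1 hy
        have hab : a ≠ b := fun e => h3 (by rw [e])
        simp only [mem_insert, mem_range] at ha hb
        rcases le_total a b with h | h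
        · exact ⟨b - a, mem_Icc.2 (by omega), by rw [← h4, dist_comm, key b a h]⟩
        · exact ⟨a - b, mem_Icc.2 (by omega), by rw [← h4, key a b h]⟩
      · rintro ⟨c, hc, rfl⟩
        rw [mem_Icc] at hc
        by_cases h : c < n
        · refine ⟨_, mem_image_of_mem _ (a := c) (by simp [h]), _,
            mem_image_of_mem _ (a := 0) (by simp; omega), by simp; omega, ?_⟩
          rw [key c 0 (by omega)]; rfl
        · refine ⟨_, mem_image_of_mem _ (a := m) (by simp), _,
            mem_image_of_mem _ (a := m - c) (by simp; omega), ?_, ?_⟩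
          · exact fun e => by have := Nat.cast_injective (R := ℝ) e; omega
          · rw [key m (m - c) (by omega)]; congr 1; omega
    rw [this, card_image_of_injective _ Nat.cast_injective]
    simp

theorem far (S : Finset ℝ) :
    ∃ T : Finset ℝ, T.card = S.card + 1 ∧ (DS T).card = (DS S).card + S.card := by
  obtain ⟨B, hB0, hB⟩ : ∃ B : ℝ, 0 ≤ B ∧ ∀ x ∈ S, |x| ≤ B :=
    ⟨∑ x ∈ S, |x|, by positivity, fun x hx => single_le_sum (fun y _ => abs_nonneg y) hx⟩
  have hd : ∀ x ∈ S, dist (3 * B + 1) x = 3 * B + 1 - x := fun x hx => by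
    rw [Real.dist_eq, abs_of_nonneg]
    linarith [(abs_le.1 (hB x hx)).2]
  have hn : 3 * B + 1 ∉ S := fun h => by linarith [(abs_le.1 (hB _ h)).2]
  refine ⟨insert (3 * B + 1) S, card_insert_of_notMem hn, ?_⟩
  have : DS (insert (3 * B + 1) S) = DS S ∪ S.image (fun x => 3 * B + 1 - x) := by
    ext d
    simp only [mem_union, mem_DS, mem_image, mem_insert]
    constructor
    · rintro ⟨x, rfl | hx, y, rfl | hy, h3, h4⟩
      · exact absurd rfl h3
      · exact Or.inr ⟨y, hy, by rw [← h4, hd y hy]⟩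
      · exact Or.inr ⟨x, hx, by rw [← h4, dist_comm, hd x hx]⟩
      · exact Or.inl ⟨x, hx, y, hy, h3, h4⟩
    · rintro (⟨x, hx, y, hy, h3, h4⟩ | ⟨x, hx, h⟩)
      · exact ⟨x, Or.inr hx, y, Or.inr hy, h3, h4⟩
      · exact ⟨_, Or.inl rfl, x, Or.inr hx, fun e => hn (e ▸ hx), by rw [hd x hx, h]⟩
  rw [this, card_union_of_disjoint, card_image_of_injective _ (sub_right_injective)]
  rw [disjoint_left]
  intro d h1 h2
  obtain ⟨x, hx, y, hy, -, rfl⟩ := mem_DS.1 h1
  obtain ⟨z, hz, e⟩ := mem_image.1 h2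
  have a1 := abs_le.1 (hB x hx)
  have a2 := abs_le.1 (hB y hy)
  have a3 := abs_le.1 (hB z hz)
  have : dist x y ≤ 2 * B := by rw [Real.dist_eq, abs_le]; constructor <;> linarith
  linarith

theorem line (n : ℕ) : ∀ m, n ≤ m → m ≤ (n + 1).choose 2 →
    ∃ S : Finset ℝ, S.card = n + 1 ∧ (DS S).card = m := by
  induction n with
  | zero =>
    intro m _ h
    exact ⟨{0}, rfl, by have := upper ({0} : Finset ℝ); simp at this h; simp [this, h]⟩
  | succ n ih =>
    intro m h1 h2
    by_cases h : m + 1 ≤ 2 * (n + 1)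
    · exact small _ _ h1 h
    · rw [Nat.choose_succ_succ' (n + 1) 1, Nat.choose_one_right] at h2
      obtain ⟨S, e1, e2⟩ := ih (m - (n + 1)) (by omega) (by simp only [Nat.reduceAdd] at h2; omega)
      obtain ⟨T, f1, f2⟩ := far S
      exact ⟨T, by omega, by omega⟩

theorem polygon (n r : ℕ) (h1 : n ≤ 2 * r + 1) (h2 : r + 1 ≤ n) :
    ∃ S : Finset (EuclideanSpace ℝ (Fin 2)), S.card = n ∧ (DS S).card = r := by
  set c : ℝ := 2 * Real.pi / (2 * r + 1) with hc
  have hc0 : 0 < c := by positivity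
  have hcm : (2 * r + 1) * c = 2 * Real.pi := by rw [hc]; field_simp
  let z : ℕ → EuclideanSpace ℝ (Fin 2) := fun j => !₂[Real.cos (j * c), Real.sin (j * c)]
  let g : ℕ → ℝ := fun d => √(2 - 2 * Real.cos (d * c))
  have hz : ∀ a b : ℕ, b ≤ a → dist (z a) (z b) = g (a - b) := fun a b h => by
    simp only [z, g, EuclideanSpace.dist_eq, Fin.sum_univ_two, Real.dist_eq, sq_abs]
    congr 1
    simp only [Matrix.cons_val_zero, Matrix.cons_val_one, Nat.cast_sub h, sub_mul, Real.cos_sub]
    nlinarith [Real.sin_sq_add_cos_sq (a * c), Real.sin_sq_add_cos_sq (b * c)]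
  have hs : ∀ d, d ≤ 2 * r + 1 → g (2 * r + 1 - d) = g d := fun d h => by
    simp only [g]
    rw [Nat.cast_sub h, sub_mul]
    push_cast
    rw [hcm, Real.cos_two_pi_sub]
  have hg : ∀ a b, a ≤ r → b ≤ r → g a = g b → a = b := fun a b ha hb e => by
    simp only [g] at e
    rw [Real.sqrt_inj (by linarith [Real.cos_le_one (a * c)])
      (by linarith [Real.cos_le_one (b * c)])] at e
    have ha' : (a : ℝ) ≤ r := by exact_mod_cast ha
    have hb' : (b : ℝ) ≤ r := by exact_mod_cast hb
    have := Real.injOn_cos (x₁ := a * c) (x₂ := b * c) ⟨by positivity, by nlinarith⟩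
      ⟨by positivity, by nlinarith⟩ (by linarith)
    exact_mod_cast mul_right_cancel₀ hc0.ne' this
  have key : ∀ a b, a < n → b < n → a ≠ b → ∃ d ∈ Icc 1 r, dist (z a) (z b) = g d := by
    have k1 : ∀ a b, a < n → b < a → ∃ d ∈ Icc 1 r, dist (z a) (z b) = g d := fun a b ha h => by
      rw [hz a b h.le]
      by_cases e : a - b ≤ r
      · exact ⟨a - b, mem_Icc.2 (by omega), rfl⟩
      · exact ⟨2 * r + 1 - (a - b), mem_Icc.2 (by omega), (hs _ (by omega)).symm⟩
    intro a b ha hb h
    rcases lt_or_gt_of_ne h with h | h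
    · rw [dist_comm]; exact k1 b a hb h
    · exact k1 a b ha h
  have hne : ∀ a b, a < n → b < n → a ≠ b → z a ≠ z b := fun a b ha hb h e => by
    obtain ⟨d, hd, e'⟩ := key a b ha hb h
    rw [mem_Icc] at hd
    rw [e, hz b b le_rfl] at e'
    have := hg _ _ (by omega) hd.2 e'
    omega
  refine ⟨(range n).image z, ?_, ?_⟩
  · rw [card_image_of_injOn, card_range]
    intro a ha b hb e
    by_contra h
    exact hne a b (by simpa using ha) (by simpa using hb) h e
  · have : DS ((range n).image z) = (Icc 1 r).image g := by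
      ext d
      rw [mem_DS, mem_image]
      constructor
      · rintro ⟨x, hx, y, hy, h3, h4⟩
        obtain ⟨a, ha, rfl⟩ := mem_image.1 hx
        obtain ⟨b, hb, rfl⟩ := mem_image.1 hy
        obtain ⟨d, hd, e⟩ := key a b (mem_range.1 ha) (mem_range.1 hb) fun e => h3 (by rw [e])
        exact ⟨d, hd, by rw [← e, h4]⟩
      · rintro ⟨d, hd, rfl⟩
        rw [mem_Icc] at hd
        exact ⟨_, mem_image_of_mem z (mem_range.2 (show d < n by omega)), _,
          mem_image_of_mem z (mem_range.2 (show 0 < n by omega)),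
          hne _ _ (by omega) (by omega) (by omega), hz d 0 (by omega)⟩
    rw [this, card_image_of_injOn]
    · simp
    · intro a ha b hb e
      exact hg a b (mem_Icc.1 (mem_coe.1 ha)).2 (mem_Icc.1 (mem_coe.1 hb)).2 e

theorem simplex (n m : ℕ) (h1 : 1 ≤ m) (h2 : m + 1 ≤ n) :
    ∃ S : Finset (EuclideanSpace ℝ (Fin n)), S.card = n ∧ (DS S).card = m := by
  let u : ℕ → ℕ := fun i => if i ≤ m then i / 2 else 0
  let z : Fin n → EuclideanSpace ℝ (Fin n) := fun i => EuclideanSpace.single i √(1 + u i)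
  let g : ℕ → ℝ := fun d => √(2 + d)
  have hz : ∀ a b : Fin n, a ≠ b → dist (z a) (z b) = g (u a + u b) := fun a b h => by
    have : dist (z a) (z b) ^ 2 = 2 + ((u a + u b : ℕ) : ℝ) := by
      rw [dist_eq_norm, norm_sub_sq_real]
      simp only [z, EuclideanSpace.norm_single, EuclideanSpace.inner_single_left,
        Real.norm_eq_abs, sq_abs]
      rw [Real.sq_sqrt (by positivity), Real.sq_sqrt (by positivity)]
      simp [h]
      ring
    simp only [g]
    rw [← this, Real.sqrt_sq dist_nonneg]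
  have hne : ∀ a b : Fin n, a ≠ b → z a ≠ z b := fun a b h e => by
    have := hz a b h
    rw [e, dist_self] at this
    have : 0 < g (u a + u b) := Real.sqrt_pos.2 (by positivity)
    linarith
  refine ⟨univ.image z, ?_, ?_⟩
  · rw [card_image_of_injective]
    · simp
    · intro a b e
      by_contra h
      exact hne a b h e
  · have : DS (univ.image z) = (range m).image g := by
      ext d
      rw [mem_DS, mem_image]
      constructor
      · rintro ⟨x, hx, y, hy, h3, h4⟩
        obtain ⟨a, -, rfl⟩ := mem_image.1 hx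
        obtain ⟨b, -, rfl⟩ := mem_image.1 hy
        have hab : a ≠ b := fun e => h3 (by rw [e])
        refine ⟨u a + u b, mem_range.2 ?_, by rw [← h4, hz a b hab]⟩
        have : (a : ℕ) ≠ b := fun e => hab (Fin.ext e)
        simp only [u]
        split_ifs <;> omega
      · rintro ⟨d, hd, rfl⟩
        rw [mem_range] at hd
        have hab : (⟨d, by omega⟩ : Fin n) ≠ ⟨d + 1, by omega⟩ := by simp
        refine ⟨_, mem_image_of_mem z (mem_univ _), _, mem_image_of_mem z (mem_univ _),
          hne _ _ hab, ?_⟩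
        rw [hz _ _ hab]
        congr 1
        simp only [u]
        split_ifs <;> omega
    rw [this, card_image_of_injective]
    · simp
    · intro a b e
      simp only [g] at e
      rw [Real.sqrt_inj (by positivity) (by positivity)] at e
      exact_mod_cast add_left_cancel e

theorem parts (n : ℕ) (hn : 2 ≤ n) :
    D 1 n = Set.Icc (n - 1) (n.choose 2) ∧
    (∀ k, 2 ≤ k → Set.Icc (n / 2) (n.choose 2) ⊆ D k n) ∧
    (∀ k, n - 1 ≤ k → D k n = Set.Icc 1 (n.choose 2)) := by
  have L : ∀ k, 1 ≤ k → ∀ m, n - 1 ≤ m → m ≤ n.choose 2 → m ∈ D k n := fun k hk m h1 h2 => by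
    obtain ⟨p, rfl⟩ : ∃ p, n = p + 1 := ⟨n - 1, by omega⟩
    obtain ⟨S, e1, e2⟩ := line p m (by omega) h2
    have := toD ℝ (k := k) (by simpa using hk) S
    rwa [e1, e2] at this
  refine ⟨?_, fun k hk m hm => ?_, fun k hk => ?_⟩
  · ext m
    refine ⟨?_, fun h => L 1 le_rfl m h.1 h.2⟩
    rintro ⟨S, rfl, rfl⟩
    refine ⟨?_, upper S⟩
    obtain ⟨h1, h2⟩ := transfer S (fun x => x 0) fun x _ y _ => by
      rw [EuclideanSpace.dist_eq]; simp [Real.sqrt_sq dist_nonneg]
    rw [← h1, ← h2]
    exact lower _ (card_pos.1 (by omega))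
  · by_cases h : n - 1 ≤ m
    · exact L k (by omega) m h hm.2
    · obtain ⟨S, e1, e2⟩ := polygon n m (by have := hm.1; omega) (by omega)
      have := toD _ (k := k) (by simpa using hk) S
      rwa [e1, e2] at this
  · ext m
    constructor
    · rintro ⟨S, rfl, rfl⟩
      refine ⟨card_pos.2 ?_, upper S⟩
      obtain ⟨x, hx, y, hy, h⟩ := one_lt_card.1 (show 1 < S.card by omega)
      exact ⟨_, mem_DS.2 ⟨x, hx, y, hy, h, rfl⟩⟩
    · intro hm
      by_cases h : n - 1 ≤ m
      · exact L k (by omega) m h hm.2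
      · obtain ⟨S, e1, e2⟩ := simplex n m hm.1 (by omega)
        have := toD' _ (k := k) S (card_pos.1 (by omega)) (by omega)
        rwa [e1, e2] at this

theorem result (n k : ℕ) (hn : 2 ≤ n) (hk : n - 1 ≤ k) : D k n = Set.Icc 1 (n.choose 2) :=
  (parts n hn).2.2 k hk

end Pool.Agent.Results.MP_603301_co.Simplex
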